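import Pool.Agent.Q140.Mov.Expand

/-!
# A constant degree expander sequence none of whose members is movable
-/

set_option autoImplicit false

open Q140.Mov

namespace Pool.Agent.Results.MP_e534f3_co.RigidExpanders

/-- There is a constant degree `15` expander sequence (finite connected `15`-regular graphs, orders
tending to infinity, `|∂S| ≥ ε |S|` for all `0 < |S| ≤ |V|/2`) none of whose members is movable.
In particular it is not true that for every `d ≥ 3` and every constant degree `d` expander sequence
all but finitely many members are movable. -/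
theorem result :
    (∃ (V : ℕ → Type) (Γ : ∀ n, SimpleGraph (V n)),
      IsExpanderSequence 15 Γ ∧ ∀ n, ¬ Movable (Γ n)) ∧
    ¬ ∀ d : ℕ, 3 ≤ d → ∀ (V : ℕ → Type) (Γ : ∀ n, SimpleGraph (V n)),
      IsExpanderSequence d Γ → ∃ N, ∀ n ≥ N, Movable (Γ n) := by
  have h := Q140.Mov.main
  refine ⟨⟨_, _, h⟩, fun H => ?_⟩
  obtain ⟨N, hN⟩ := H 15 (by norm_num) _ _ h.1
  exact h.2 N (hN N le_rfl)

end Pool.Agent.Results.MP_e534f3_co.RigidExpanders
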